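import Pool.Agent.H.MP_d4d41d_nt.A

set_option autoImplicit false

namespace Pool.Agent.Results.MP_0ebc21_nt.Growth

open PowerSeries PowerSeries.WithPiTopology

/-- False theta function; the second sum runs over the negative indices `-(n + 1)`. -/
noncomputable def Psi (a b : ℤ⟦X⟧) : ℤ⟦X⟧ :=
  (∑' n : ℕ, a ^ (n + 1).choose 2 * b ^ n.choose 2) -
    ∑' n : ℕ, a ^ (n + 1).choose 2 * b ^ (n + 2).choose 2

noncomputable def c (a n : ℕ) : ℤ := coeff n (invOfUnit (Psi (-X ^ a) X) 1)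

open Pool.Agent.H.MP_d4d41d_nt Filter Topology

theorem blocks {a : ℕ} (ha : 1 ≤ a) (x : ℝ) (M : ℕ) :
    ∑ k ∈ Finset.range (s a M), (A a eps k : ℝ) * x ^ k =
      ∑ n ∈ Finset.range M, (eps n : ℝ) * x ^ s a n * ∑ i ∈ Finset.range (2 * n + 1), x ^ i := by
  induction M with
  | zero => simp [s]
  | succ M ih =>
    obtain ⟨d, hd⟩ := Nat.exists_eq_add_of_le (s_step ha M)
    rw [Finset.sum_range_succ, ← ih, hd, Finset.sum_range_add, Finset.sum_range_add, Finset.mul_sum]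
    have e1 : ∑ i ∈ Finset.range d, (A a eps (s a M + (2 * M + 1) + i) : ℝ) *
        x ^ (s a M + (2 * M + 1) + i) = 0 := Finset.sum_eq_zero fun i hi => by
      rw [Finset.mem_range] at hi
      rw [A_eq ha eps M _ (by omega) (by omega), if_neg (by omega)]; simp
    rw [e1, add_zero]
    congr 1
    refine Finset.sum_congr rfl fun i hi => ?_
    rw [Finset.mem_range] at hi
    rw [A_eq ha eps M _ (by omega) (by omega), if_pos (by omega), pow_add]; ring

theorem neg_part {a : ℕ} (ha : 1 ≤ a) (x : ℝ) (h1 : 3 / 5 ≤ x) (h2 : x ≤ 1) (h3 : x ^ a = 3 / 5)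
    (M : ℕ) : ∑ k ∈ Finset.range (s a (M + 3)), (A a eps k : ℝ) * x ^ k ≤ -1 / 20 := by
  have hx : 0 ≤ x := by linarith
  have hs : ∀ n, x ^ s a n = (3 / 5) ^ (n + 1).choose 2 * x ^ n.choose 2 := by
    intro n; rw [s, pow_add, pow_mul, h3]
  have key : ∀ M, ∑ n ∈ Finset.range (M + 3), (eps n : ℝ) * x ^ s a n *
      ∑ i ∈ Finset.range (2 * n + 1), x ^ i +
      5 / 4 * ((2 * (M + 3 : ℕ) + 1 : ℝ) * (3 / 5) ^ (M + 3 + 1).choose 2) ≤ -1 / 20 := by
    intro M
    induction M with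
    | zero =>
      simp only [Finset.sum_range_succ, Finset.sum_range_zero, hs, eps, Nat.choose]
      have p2 : (3 / 5 : ℝ) ^ 2 ≤ x ^ 2 := by gcongr
      have p3 : (3 / 5 : ℝ) ^ 3 ≤ x ^ 3 := by gcongr
      have p4 : (3 / 5 : ℝ) ^ 4 ≤ x ^ 4 := by gcongr
      have p5 : (3 / 5 : ℝ) ^ 5 ≤ x ^ 5 := by gcongr
      norm_num at p2 p3 p4 p5 ⊢
      nlinarith
    | succ M ih =>
      rw [show M + 1 + 3 = M + 3 + 1 by ring, Finset.sum_range_succ, ch (M + 3 + 1), pow_add]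
      set n := M + 3 with hn
      have t0 : (0 : ℝ) < (3 / 5) ^ (n + 1).choose 2 := by positivity
      have b1 : ∑ i ∈ Finset.range (2 * n + 1), x ^ i ≤ 2 * n + 1 := by
        have := Finset.sum_le_card_nsmul (Finset.range (2 * n + 1)) (fun i => x ^ i) 1
          (fun i _ => pow_le_one₀ hx h2)
        simpa using this
      have b0 : 0 ≤ ∑ i ∈ Finset.range (2 * n + 1), x ^ i := by positivity
      have b2 : (eps n : ℝ) * x ^ s a n ≤ (3 / 5) ^ (n + 1).choose 2 := by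
        have e1 : (eps n : ℝ) ≤ 1 := by
          have : |(eps n : ℝ)| = 1 := by simp [eps]
          exact (le_abs_self _).trans this.le
        have e2 : x ^ s a n ≤ (3 / 5) ^ (n + 1).choose 2 := by
          rw [hs]; exact mul_le_of_le_one_right t0.le (pow_le_one₀ hx h2)
        exact (mul_le_of_le_one_left (by positivity) e1).trans e2
      have b3 : (eps n : ℝ) * x ^ s a n * ∑ i ∈ Finset.range (2 * n + 1), x ^ i ≤
          (3 / 5) ^ (n + 1).choose 2 * (2 * n + 1) :=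
        (mul_le_mul_of_nonneg_right b2 b0).trans (mul_le_mul_of_nonneg_left b1 t0.le)
      have b4 : (3 / 5 : ℝ) ^ (n + 1) ≤ (3 / 5) ^ 4 :=
        pow_le_pow_of_le_one (by norm_num) (by norm_num) (by omega)
      have b5 : (3 : ℝ) ≤ n := by rw [hn]; push_cast; linarith [Nat.cast_nonneg (α := ℝ) M]
      have b6 : (2 * ((n + 1 : ℕ) : ℝ) + 1) * (3 / 5) ^ (n + 1) ≤ (2 * n + 1) / 5 := by
        push_cast
        have : (2 * ((n : ℝ) + 1) + 1) * (3 / 5) ^ (n + 1) ≤ (2 * ((n : ℝ) + 1) + 1) * (3 / 5) ^ 4 :=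
          mul_le_mul_of_nonneg_left b4 (by linarith)
        nlinarith
      nlinarith [mul_le_mul_of_nonneg_left b6 t0.le]
  have := key M
  have p : (0 : ℝ) ≤ 5 / 4 * ((2 * (M + 3 : ℕ) + 1 : ℝ) * (3 / 5) ^ (M + 3 + 1).choose 2) := by
    positivity
  rw [blocks ha]; linarith

theorem result : ∀ a : ℕ, 1 ≤ a → ∃ β : ℝ, 1 < β ∧ ∀ N : ℕ, ∃ n ≥ N, β ^ n ≤ |(c a n : ℝ)| := by
  intro a ha
  by_contra hcon
  push Not at hcon
  have hP : Psi (-X ^ a) X = (1 - X) * PowerSeries.mk (A a eps) := psi_eq ha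
  have a0 : A a eps 0 = 1 := by
    rw [A_eq ha eps 0 0 (by simp [s]) (by have := s_step ha 0; omega)]; simp [eps]
  have hu : Psi (-X ^ a) X * invOfUnit (Psi (-X ^ a) X) 1 = 1 := mul_invOfUnit _ _ (by
    rw [hP, ← coeff_zero_eq_constantCoeff_apply]; simp [a0])
  set E := (1 - X) * invOfUnit (Psi (-X ^ a) X) 1 with hE
  have hAE : PowerSeries.mk (A a eps) * E = 1 := by rw [← hu, hE]; nth_rw 2 [hP]; ring
  have hA : ∀ k, |(A a eps k : ℝ)| ≤ 1 := fun k => by
    exact_mod_cast A_abs a eps (fun n => by simp [eps]) k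
  have sA : ∀ x : ℝ, 0 ≤ x → x < 1 → Summable fun k => ‖(A a eps k : ℝ) * x ^ k‖ := by
    intro x h0 h1
    refine Summable.of_nonneg_of_le (fun _ => norm_nonneg _) (fun k => ?_)
      (summable_geometric_of_lt_one h0 h1)
    rw [Real.norm_eq_abs, abs_mul, abs_of_nonneg (pow_nonneg h0 k)]
    exact mul_le_of_le_one_left (pow_nonneg h0 k) (hA k)
  have sC : ∀ x : ℝ, 0 ≤ x → x < 1 → Summable fun k => ‖(c a k : ℝ) * x ^ k‖ := by
    intro x h0 h1
    obtain ⟨N, hN⟩ := hcon (2 / (1 + x)) (by rw [lt_div_iff₀ (by linarith)]; linarith)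
    refine Summable.of_norm_bounded_eventually_nat (g := fun k => (2 / (1 + x) * x) ^ k)
      (summable_geometric_of_lt_one (by positivity)
        (by rw [div_mul_eq_mul_div, div_lt_one (by linarith)]; linarith))
      (eventually_atTop.2 ⟨N, fun k hk => ?_⟩)
    rw [norm_norm, Real.norm_eq_abs, abs_mul, abs_of_nonneg (pow_nonneg h0 k), mul_pow]
    exact mul_le_mul_of_nonneg_right (hN k hk).le (pow_nonneg h0 k)
  have sE : ∀ x : ℝ, 0 ≤ x → x < 1 → Summable fun k => ‖((coeff k E : ℤ) : ℝ) * x ^ k‖ := by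
    intro x h0 h1
    rw [← summable_nat_add_iff 1]
    refine Summable.of_nonneg_of_le (fun _ => norm_nonneg _) (fun k => ?_)
      (((summable_nat_add_iff 1).2 (sC x h0 h1)).add ((sC x h0 h1).mul_left x))
    have e : ((coeff (k + 1) E : ℤ) : ℝ) * x ^ (k + 1) =
        (c a (k + 1) : ℝ) * x ^ (k + 1) - x * ((c a k : ℝ) * x ^ k) := by
      rw [hE, sub_mul, one_mul, map_sub, coeff_succ_X_mul]; unfold c; push_cast; ring
    rw [e]
    refine (norm_sub_le _ _).trans (le_of_eq ?_)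
    rw [norm_mul x, Real.norm_of_nonneg h0]
  have prod : ∀ x : ℝ, 0 ≤ x → x < 1 →
      (∑' k, (A a eps k : ℝ) * x ^ k) * (∑' k, ((coeff k E : ℤ) : ℝ) * x ^ k) = 1 := by
    intro x h0 h1
    rw [tsum_mul_tsum_eq_tsum_sum_antidiagonal_of_summable_norm (sA x h0 h1) (sE x h0 h1)]
    have : ∀ n : ℕ, ∑ kl ∈ Finset.HasAntidiagonal.antidiagonal n, (A a eps kl.1 : ℝ) * x ^ kl.1 *
        (((coeff kl.2 E : ℤ) : ℝ) * x ^ kl.2) = if n = 0 then 1 else 0 := by
      intro n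
      have h := congrArg (fun f => ((coeff n f : ℤ) : ℝ) * x ^ n) hAE
      simp only [coeff_mul, coeff_mk, coeff_one, Int.cast_sum, Int.cast_mul, Finset.sum_mul] at h
      rw [Finset.sum_congr rfl fun kl hkl => by
        rw [show (A a eps kl.1 : ℝ) * x ^ kl.1 * (((coeff kl.2 E : ℤ) : ℝ) * x ^ kl.2) =
          (A a eps kl.1 : ℝ) * ((coeff kl.2 E : ℤ) : ℝ) * x ^ (kl.1 + kl.2) by ring,
          Finset.HasAntidiagonal.mem_antidiagonal.1 hkl], h]
      split_ifs with e <;> simp [e]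
    simp only [this]; simp
  let x0 : ℝ := (3 / 5 : ℝ) ^ ((a : ℝ)⁻¹)
  have x3 : x0 ^ a = 3 / 5 := Real.rpow_inv_natCast_pow (by norm_num) (by omega)
  have x0n : 0 ≤ x0 := Real.rpow_nonneg (by norm_num) _
  have x2 : x0 < 1 := by
    by_contra h
    have := one_le_pow₀ (n := a) (not_lt.1 h)
    linarith
  have x1 : 3 / 5 ≤ x0 := by
    rw [← x3]; exact pow_le_of_le_one x0n x2.le (by omega)
  have hF : ∑' k, (A a eps k : ℝ) * x0 ^ k ≤ -1 / 20 := by
    have t := (sA x0 x0n x2).of_norm.hasSum.tendsto_sum_nat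
    have t2 : Tendsto (fun M => s a (M + 3)) atTop atTop :=
      (s_mono ha).tendsto_atTop.comp (tendsto_add_atTop_nat 3)
    exact le_of_tendsto' (t.comp t2) fun M => neg_part ha x0 x1 x2.le x3 M
  have hc : ContinuousOn (fun x : ℝ => ∑' k, (A a eps k : ℝ) * x ^ k) (Set.Icc 0 x0) := by
    refine continuousOn_tsum (fun k => by fun_prop) (summable_geometric_of_lt_one x0n x2)
      fun k x hx => ?_
    rw [Real.norm_eq_abs, abs_mul, abs_of_nonneg (pow_nonneg hx.1 k)]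
    exact (mul_le_of_le_one_left (pow_nonneg hx.1 k) (hA k)).trans (pow_le_pow_left₀ hx.1 hx.2 k)
  have h0 : ∑' k, (A a eps k : ℝ) * (0 : ℝ) ^ k = 1 := by
    rw [tsum_eq_single 0 fun k hk => by simp [hk]]; simp [a0]
  obtain ⟨x, hx, hx0⟩ := intermediate_value_Icc' x0n hc
    (show (0 : ℝ) ∈ Set.Icc _ _ from ⟨by linarith, by simp only [h0]; norm_num⟩)
  have := prod x hx.1 (hx.2.trans_lt x2)
  simp only at hx0
  rw [hx0, zero_mul] at this
  exact zero_ne_one this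

end Pool.Agent.Results.MP_0ebc21_nt.Growth
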